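import Pool.Agent.Q66.RX.Stm

/-!
# Project RX, job SEQ
-/

set_option autoImplicit false

namespace Pool.Agent.Q208.RX

open Topology Filter Set
open Pool.Agent.Q66.RX

theorem continuous_rr : Continuous rr := Complex.continuous_re.comp continuous_subtype_val

theorem t_SEQ : S_SEQ := by
  intro G _ _ _ L hL y hy
  let f : C(OnePoint ℕ, G) := OnePoint.continuousMapMkNat y 1 hy
  have c1 : Continuous fun χ : PontryaginDual G =>
      (ContinuousMap.comp (ContinuousMonoidHom.toContinuousMap χ) f : C(OnePoint ℕ, Circle)) :=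
    (ContinuousMap.continuous_precomp f).comp
      (ContinuousMonoidHom.isInducing_toContinuousMap G Circle).continuous
  have c2 : Continuous fun q : PontryaginDual G × OnePoint ℕ => rr (q.1 (f q.2)) := by
    have h : Continuous fun q : PontryaginDual G × OnePoint ℕ =>
        (ContinuousMap.comp (ContinuousMonoidHom.toContinuousMap q.1) f : C(OnePoint ℕ, Circle)) q.2 :=
      (c1.comp continuous_fst).eval continuous_snd
    exact continuous_rr.comp h
  have ho : IsOpen {q : PontryaginDual G × OnePoint ℕ | 0 < rr (q.1 (f q.2))} :=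
    isOpen_lt continuous_const c2
  have hsub : L ×ˢ ({OnePoint.infty} : Set (OnePoint ℕ)) ⊆
      {q : PontryaginDual G × OnePoint ℕ | 0 < rr (q.1 (f q.2))} := by
    rintro ⟨χ, k⟩ ⟨_, hk⟩
    rw [mem_singleton_iff] at hk
    subst hk
    show 0 < rr (χ (f OnePoint.infty))
    have e : f OnePoint.infty = 1 := rfl
    rw [e, map_one]
    show 0 < ((1 : Circle) : ℂ).re
    simp
  obtain ⟨u, v, _, hv, hu1, hv1, huv⟩ := generalized_tube_lemma hL isCompact_singleton ho hsub
  have hv2 : v ∈ 𝓝 (OnePoint.infty : OnePoint ℕ) := hv.mem_nhds (hv1 (mem_singleton _))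
  have ht : Tendsto (fun n : ℕ => (n : OnePoint ℕ)) atTop (𝓝 OnePoint.infty) := by
    have h := OnePoint.tendsto_coe_infty (X := ℕ)
    rw [coclosedCompact_eq_cocompact, cocompact_eq_cofinite, Nat.cofinite_eq_atTop] at h
    exact h
  filter_upwards [ht hv2] with n hn χ hχ
  have h := huv (mk_mem_prod (hu1 hχ) hn)
  exact le_of_lt h

end Pool.Agent.Q208.RX
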